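import Mathlib

open Set Filter Topology

namespace Q320.PC

/-- bounded 2-separated subsets of a finite-dimensional subspace are finite -/
theorem finite_of_sep {Y : Type*} [NormedAddCommGroup Y] [NormedSpace ℝ Y] (V : Submodule ℝ Y)
    [FiniteDimensional ℝ V] (S : Set Y) (hSV : ∀ a ∈ S, a ∈ V) (R : ℝ) (hR : ∀ a ∈ S, ‖a‖ ≤ R)
    (hsep : ∀ a ∈ S, ∀ b ∈ S, a ≠ b → 2 ≤ ‖a - b‖) : S.Finite := by
  have : ProperSpace V := FiniteDimensional.proper_real V
  have hT : TotallyBounded S := by
    have h1 : IsCompact (Metric.closedBall (0 : V) R) := isCompact_closedBall 0 R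
    have h2 := (h1.image continuous_subtype_val).totallyBounded
    refine h2.subset ?_
    intro a ha
    exact ⟨⟨a, hSV a ha⟩, by simpa using hR a ha, rfl⟩
  obtain ⟨t, ht, hcov⟩ := Metric.totallyBounded_iff.1 hT 1 one_pos
  have hsub : S ⊆ ⋃ y ∈ t, (S ∩ Metric.ball y 1) := by
    intro a ha
    have := hcov ha
    simp only [mem_iUnion, exists_prop] at this ⊢
    obtain ⟨y, hy, hay⟩ := this
    exact ⟨y, hy, ha, hay⟩
  refine (ht.biUnion (fun y _ => ?_)).subset hsub
  refine Set.Subsingleton.finite ?_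
  rintro a ⟨ha, hay⟩ b ⟨hb, hby⟩
  by_contra hab
  have h1 := hsep a ha b hb hab
  have h2 : dist a b < 2 := by
    have := dist_triangle_right a b y
    rw [Metric.mem_ball] at hay hby
    linarith
  rw [dist_eq_norm] at h2
  linarith

/-- functions of a finite-dimensional space of continuous functions have uniformly small
oscillation near a point -/
theorem equi {D : Type*} [TopologicalSpace D] [CompactSpace D] (V : Submodule ℝ C(D, ℝ))
    [FiniteDimensional ℝ V] (y₀ : D) (η : ℝ) (hη : 0 < η) :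
    ∀ᶠ y in 𝓝 y₀, ∀ v ∈ V, |v y - v y₀| ≤ η * ‖v‖ := by
  have : ProperSpace V := FiniteDimensional.proper_real V
  have h1 : IsCompact (Metric.closedBall (0 : V) 1) := isCompact_closedBall 0 1
  have h2 := (h1.image continuous_subtype_val).totallyBounded
  obtain ⟨t, ht, hcov⟩ := Metric.totallyBounded_iff.1 h2 (η / 3) (by positivity)
  have h3 : ∀ᶠ y in 𝓝 y₀, ∀ w ∈ t, |w y - w y₀| < η / 3 := by
    rw [Filter.eventually_all_finite ht]
    intro w _
    have : ContinuousAt w y₀ := w.continuous.continuousAt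
    have := Metric.tendsto_nhds.1 this (η / 3) (by positivity)
    simpa [Real.dist_eq] using this
  filter_upwards [h3] with y hy v hv
  by_cases h0 : v = 0
  · subst h0; simp
  have hpos : 0 < ‖v‖ := norm_pos_iff.2 h0
  have hmem : (‖v‖⁻¹ • v) ∈ ((↑) '' (Metric.closedBall (0 : V) 1) : Set C(D, ℝ)) := by
    refine ⟨⟨‖v‖⁻¹ • v, V.smul_mem _ hv⟩, ?_, rfl⟩
    rw [Metric.mem_closedBall, dist_zero_right]
    change ‖‖v‖⁻¹ • v‖ ≤ 1
    rw [norm_smul, norm_inv, norm_norm, inv_mul_cancel₀ hpos.ne']
  have := hcov hmem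
  simp only [mem_iUnion, exists_prop] at this
  obtain ⟨w, hw, hvw⟩ := this
  rw [Metric.mem_ball, dist_eq_norm] at hvw
  have ha := (ContinuousMap.norm_coe_le_norm (‖v‖⁻¹ • v - w) y)
  have hb := (ContinuousMap.norm_coe_le_norm (‖v‖⁻¹ • v - w) y₀)
  have hc := hy w hw
  rw [Real.norm_eq_abs] at ha hb
  simp only [ContinuousMap.coe_sub, ContinuousMap.coe_smul, Pi.sub_apply, Pi.smul_apply,
    smul_eq_mul] at ha hb
  have hd : |‖v‖⁻¹ * v y - ‖v‖⁻¹ * v y₀| ≤ η := by
    have h1 := abs_le.1 (ha.trans hvw.le)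
    have h2 := abs_le.1 (hb.trans hvw.le)
    have h3 := abs_lt.1 hc
    rw [abs_le]
    constructor <;> linarith [h1.1, h1.2, h2.1, h2.2, h3.1, h3.2]
  rw [← mul_sub, abs_mul, abs_of_pos (inv_pos.2 hpos)] at hd
  have := mul_le_mul_of_nonneg_left hd hpos.le
  rw [← mul_assoc, mul_inv_cancel₀ hpos.ne', one_mul] at this
  linarith

/-- distinct representatives for finitely many infinite sets -/
theorem exists_reps {ι D : Type*} (s : Set ι) (hs : s.Finite) (U : ι → Set D)
    (hU : ∀ i ∈ s, (U i).Infinite) [Nonempty D] :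
    ∃ y : ι → D, Set.InjOn y s ∧ ∀ i ∈ s, y i ∈ U i := by
  classical
  induction s, hs using Set.Finite.induction_on with
  | empty => exact ⟨fun _ => Classical.arbitrary D, by simp, by simp⟩
  | @insert a s ha hs ih =>
    obtain ⟨y, hy1, hy2⟩ := ih (fun i hi => hU i (Set.mem_insert_of_mem _ hi))
    obtain ⟨z, hz, hzn⟩ := (hU a (Set.mem_insert _ _)).exists_notMem_finite (hs.image y)
    refine ⟨Function.update y a z, ?_, ?_⟩
    · rintro i (rfl | hi) j (rfl | hj) hij
      · rfl
      · rw [Function.update_self, Function.update_of_ne (by rintro rfl; exact ha hj)] at hij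
        exact absurd ⟨j, hj, hij.symm⟩ hzn
      · rw [Function.update_self, Function.update_of_ne (by rintro rfl; exact ha hi)] at hij
        exact absurd ⟨i, hi, hij⟩ hzn
      · rw [Function.update_of_ne (by rintro rfl; exact ha hi),
          Function.update_of_ne (by rintro rfl; exact ha hj)] at hij
        exact hy1 hi hj hij
    · rintro i (rfl | hi)
      · rw [Function.update_self]; exact hz
      · rw [Function.update_of_ne (by rintro rfl; exact ha hi)]; exact hy2 i hi

end Q320.PC
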