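import Pool.Agent.Q320.PC.Glue

open Set Filter Topology

namespace Q320.PC

section Class

variable {K : Type*} [TopologicalSpace K] [CompactSpace K] [T2Space K]

theorem step_td (ε : ℝ) (hε : 0 < ε) (F : Set K) (hF : IsClosed F) (U : Set K) (hU : IsOpen U)
    (x : K) (hx : x ∈ F ∩ U) (htd : IsTotallyDisconnected (F ∩ U)) :
    ∃ M F' : Set K, IsClosed M ∧ IsClosed F' ∧
      F = M ∪ F' ∧ F' ≠ F ∧ ∃ Q : AddSubgroup C(K, ℝ), (∀ q ∈ Q, ∀ x ∈ F', q x = 0) ∧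
      (∀ q ∈ Q, q ≠ 0 → ∃ x ∈ M, 2 ≤ |q x|) ∧
      ∀ u : C(K, ℝ), (∀ x ∈ F', |u x| < 1 + ε) → ∃ q ∈ Q, ∀ x ∈ M, |u x - q x| < 1 + ε := by
  have : CompactSpace F := isCompact_iff_compactSpace.1 hF.isCompact
  have hD : IsClosed {y : F | (y : K) ∉ U} := (hU.isClosed_compl).preimage continuous_subtype_val
  have htd' : IsTotallyDisconnected ({y : F | (y : K) ∉ U}ᶜ) := by
    intro t ht hpt a ha b hb
    have h1 : (Subtype.val '' t).Subsingleton := by
      refine htd _ ?_ (hpt.image _ continuous_subtype_val.continuousOn)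
      rintro _ ⟨y, hy, rfl⟩
      refine ⟨y.2, ?_⟩
      have := ht hy
      by_contra hcon
      exact this hcon
    exact Subtype.ext (h1 ⟨a, ha, rfl⟩ ⟨b, hb, rfl⟩)
  obtain ⟨V, hV, hxV, hVD, _⟩ := local_clopen {y : F | (y : K) ∉ U} hD htd' 0 1 one_pos
    ⟨x, hx.1⟩ (fun h => h hx.2)
  have hMc : IsCompact ((↑) '' V : Set K) := hV.1.isCompact.image continuous_subtype_val
  have hFc : IsCompact ((↑) '' Vᶜ : Set K) :=
    hV.compl.1.isCompact.image continuous_subtype_val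
  have : CompactSpace ((↑) '' V : Set K) := isCompact_iff_compactSpace.1 hMc
  have hdisj : ∀ y ∈ ((↑) '' V : Set K), y ∉ ((↑) '' Vᶜ : Set K) := by
    rintro _ ⟨y, hy, rfl⟩ ⟨z, hz, hzy⟩
    rw [Subtype.ext hzy] at hz
    exact hz hy
  have hMtd : TotallyDisconnectedSpace ((↑) '' V : Set K) := by
    rw [totallyDisconnectedSpace_subtype_iff]
    intro t ht hpt
    refine htd t (ht.trans ?_) hpt
    rintro _ ⟨y, hy, rfl⟩
    refine ⟨y.2, ?_⟩
    by_contra hcon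
    exact Set.disjoint_left.1 hVD hy hcon
  refine ⟨(↑) '' V, (↑) '' Vᶜ, hMc.isClosed, hFc.isClosed, ?_, ?_, ?_⟩
  · rw [← Set.image_union, Set.union_compl_self, Set.image_univ, Subtype.range_coe]
  · intro h
    have h1 : x ∈ ((↑) '' Vᶜ : Set K) := by rw [h]; exact hx.1
    exact hdisj x ⟨⟨x, hx.1⟩, hxV, rfl⟩ h1
  · refine transfer _ _ hMc.isClosed hFc.isClosed ε ?_
    have e : {x : ((↑) '' V : Set K) | (x : K) ∈ ((↑) '' Vᶜ : Set K)} = ∅ := by
      ext y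
      simp only [Set.mem_ofPred_eq, Set.mem_empty_iff_false, iff_false]
      exact hdisj y y.2
    rw [e]
    exact sep_totallyDisconnected ε hε

theorem step_metrizable (ε : ℝ) (hε : 0 < ε) (hε1 : ε ≤ 1) (F : Set K) (hF : IsClosed F)
    (U : Set K) (hU : IsOpen U) (x : K) (hx : x ∈ F ∩ U)
    (hm : TopologicalSpace.MetrizableSpace ↥(F ∩ U)) :
    ∃ M F' : Set K, IsClosed M ∧ IsClosed F' ∧
      F = M ∪ F' ∧ F' ≠ F ∧ ∃ Q : AddSubgroup C(K, ℝ), (∀ q ∈ Q, ∀ x ∈ F', q x = 0) ∧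
      (∀ q ∈ Q, q ≠ 0 → ∃ x ∈ M, 2 ≤ |q x|) ∧
      ∀ u : C(K, ℝ), (∀ x ∈ F', |u x| < 1 + ε) → ∃ q ∈ Q, ∀ x ∈ M, |u x - q x| < 1 + ε := by
  by_cases hiso : ∃ y ∈ F ∩ U, ∃ O : Set K, IsOpen O ∧ F ∩ O = {y}
  · obtain ⟨y, _, O, hO, hFO⟩ := hiso
    refine step_td ε hε F hF O hO y (by rw [hFO]; rfl) ?_
    rw [hFO]
    exact isTotallyDisconnected_singleton
  push Not at hiso
  obtain ⟨V, hVo, hxV, hVU⟩ : ∃ V : Set K, IsOpen V ∧ x ∈ V ∧ closure V ⊆ U := by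
    obtain ⟨t, ht, htc, htU⟩ := exists_mem_nhds_isClosed_subset (hU.mem_nhds hx.2)
    exact ⟨interior t, isOpen_interior, mem_interior_iff_mem_nhds.2 ht,
      (closure_minimal interior_subset htc).trans htU⟩
  have hMcl : IsClosed (F ∩ closure V) := hF.inter isClosed_closure
  have : CompactSpace ↥(F ∩ closure V) := isCompact_iff_compactSpace.1 hMcl.isCompact
  have hsub : F ∩ closure V ⊆ F ∩ U := Set.inter_subset_inter_right _ hVU
  have : TopologicalSpace.MetrizableSpace ↥(F ∩ closure V) :=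
    (Topology.IsEmbedding.inclusion hsub).metrizableSpace
  let _ := TopologicalSpace.metrizableSpaceMetric ↥(F ∩ closure V)
  have hF'cl : IsClosed (F ∩ Vᶜ) := hF.inter hVo.isClosed_compl
  refine ⟨F ∩ closure V, F ∩ Vᶜ, hMcl, hF'cl, ?_, ?_, ?_⟩
  · ext z
    constructor
    · intro hz
      by_cases hzV : z ∈ V
      · exact Or.inl ⟨hz, subset_closure hzV⟩
      · exact Or.inr ⟨hz, hzV⟩
    · rintro (h | h)
      · exact h.1
      · exact h.1
  · intro h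
    have h1 : x ∈ F ∩ Vᶜ := by rw [h]; exact hx.1
    exact h1.2 hxV
  · refine transfer _ _ hMcl hF'cl ε ?_
    refine sep_perfect _ (hF'cl.preimage continuous_subtype_val) ?_ ε hε hε1
    intro z hz
    have hzV : (z : K) ∈ V := by
      by_contra hcon
      exact hz ⟨z.2.1, hcon⟩
    rw [← mem_closure_iff_nhdsWithin_neBot, mem_closure_iff_nhds]
    intro t ht
    obtain ⟨t', ht', hsub'⟩ := (mem_nhds_subtype _ z t).1 ht
    obtain ⟨O, hOt, hO, hzO⟩ := mem_nhds_iff.1 (Filter.inter_mem ht' (hVo.mem_nhds hzV))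
    have h1 := hiso z ⟨z.2.1, hVU z.2.2⟩ O hO
    have h2 : ∃ y ∈ F ∩ O, y ≠ (z : K) := by
      by_contra hcon
      push Not at hcon
      apply h1
      ext y
      constructor
      · intro hy; exact hcon y hy
      · intro hy
        rw [Set.mem_singleton_iff.1 hy]
        exact ⟨z.2.1, hzO⟩
    obtain ⟨y, hy, hyz⟩ := h2
    refine ⟨⟨y, hy.1, subset_closure (hOt hy.2).2⟩, hsub' (hOt hy.2).1, ?_⟩
    intro h
    exact hyz (congrArg Subtype.val h)

/-- the lattice simultaneous packing and covering constant `γ*(X)`: the infimum of all `r > 0`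
for which `X` has an `r`-dense and `2`-separated additive subgroup -/
noncomputable def gammaStar (X : Type*) [NormedAddCommGroup X] : ℝ :=
  sInf {r : ℝ | 0 < r ∧ ∃ P : AddSubgroup X, (∀ x : X, ∃ p ∈ P, ‖x - p‖ ≤ r) ∧
    ∀ p ∈ P, ∀ q ∈ P, p ≠ q → 2 ≤ ‖p - q‖}

/-- every nonempty closed subset of `K` has a nonempty relatively open part which is metrizable
or totally disconnected -/
def PiecewiseTame (K : Type*) [TopologicalSpace K] : Prop :=
  ∀ F : Set K, IsClosed F → F.Nonempty → ∃ U : Set K, IsOpen U ∧ (F ∩ U).Nonempty ∧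
    (TopologicalSpace.MetrizableSpace ↥(F ∩ U) ∨ IsTotallyDisconnected (F ∩ U))

theorem gammaStar_eq_one [Nonempty K] (hK : PiecewiseTame K) : gammaStar C(K, ℝ) = 1 := by
  have hbdd : BddBelow {r : ℝ | 0 < r ∧ ∃ P : AddSubgroup C(K, ℝ),
      (∀ x : C(K, ℝ), ∃ p ∈ P, ‖x - p‖ ≤ r) ∧ ∀ p ∈ P, ∀ q ∈ P, p ≠ q → 2 ≤ ‖p - q‖} :=
    ⟨0, fun r hr => hr.1.le⟩
  have hmem : ∀ ε : ℝ, 0 < ε → ε ≤ 1 → (1 + ε) ∈ {r : ℝ | 0 < r ∧ ∃ P : AddSubgroup C(K, ℝ),
      (∀ x : C(K, ℝ), ∃ p ∈ P, ‖x - p‖ ≤ r) ∧ ∀ p ∈ P, ∀ q ∈ P, p ≠ q → 2 ≤ ‖p - q‖} := by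
    intro ε hε hε1
    refine ⟨by linarith, ?_⟩
    refine zorn_packing ε hε ?_
    intro F hF hFne
    obtain ⟨U, hU, ⟨x, hx⟩, h | h⟩ := hK F hF hFne
    · exact step_metrizable ε hε hε1 F hF U hU x hx h
    · exact step_td ε hε F hF U hU x hx h
  apply le_antisymm
  · refine le_of_forall_pos_le_add (fun δ hδ => ?_)
    have h1 := csInf_le hbdd (hmem (min 1 δ) (by positivity) (min_le_left _ _))
    have h2 := min_le_right 1 δ
    unfold gammaStar
    linarith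
  · refine le_csInf ⟨_, hmem 1 one_pos le_rfl⟩ ?_
    rintro r ⟨_, P, hP1, hP2⟩
    by_contra hr
    push Not at hr
    obtain ⟨p, hp, hp1⟩ := hP1 1
    have hp0 : p ≠ 0 := by
      rintro rfl
      rw [sub_zero, norm_one] at hp1
      linarith
    have h1 := hP2 p hp 0 P.zero_mem hp0
    rw [sub_zero] at h1
    have h2 : ‖p‖ ≤ ‖(1 : C(K, ℝ))‖ + ‖1 - p‖ := by
      have : p = 1 - (1 - p) := by abel
      calc ‖p‖ = ‖1 - (1 - p)‖ := by rw [← this]
        _ ≤ _ := norm_sub_le _ _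
    rw [norm_one] at h2
    linarith

end Class

end Q320.PC
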