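import Pool.Agent.Q320.PC.Rel

open Set Filter Topology

namespace Q320.PC

section Glue

variable {K : Type*} [TopologicalSpace K] [CompactSpace K] [T2Space K]

theorem local_clopen (D : Set K) (hD : IsClosed D) (htd : IsTotallyDisconnected Dᶜ)
    (u : C(K, ℝ)) (ε : ℝ) (hε : 0 < ε) (x : K) (hx : x ∉ D) :
    ∃ V : Set K, IsClopen V ∧ x ∈ V ∧ Disjoint V D ∧ ∀ y ∈ V, |u y - u x| < ε := by
  have : LocallyCompactSpace ↥Dᶜ := hD.isOpen_compl.locallyCompactSpace
  have : TotallyDisconnectedSpace ↥Dᶜ := totallyDisconnectedSpace_subtype_iff.2 htd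
  let x' : ↥Dᶜ := ⟨x, hx⟩
  have hO : IsOpen {y : ↥Dᶜ | |u y - u x| < ε} := by
    have : Continuous (fun y : ↥Dᶜ => |u y - u x|) := by fun_prop
    exact isOpen_lt this continuous_const
  obtain ⟨s, hs, hxs, hsO⟩ := exists_compact_subset hO (show x' ∈ _ by simp [x', hε])
  obtain ⟨V, hV, hxV, hVs⟩ := (loc_compact_Haus_tot_disc_of_zero_dim (H := ↥Dᶜ)).exists_subset_of_mem_open
    hxs isOpen_interior
  have hVc : IsCompact V := hs.of_isClosed_subset hV.1 (hVs.trans interior_subset)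
  refine ⟨(↑) '' V, ⟨?_, ?_⟩, ⟨x', hxV, rfl⟩, ?_, ?_⟩
  · exact (hVc.image continuous_subtype_val).isClosed
  · exact hD.isOpen_compl.isOpenMap_subtype_val V hV.2
  · rw [Set.disjoint_left]
    rintro _ ⟨y, _, rfl⟩ hy
    exact y.2 hy
  · rintro _ ⟨y, hy, rfl⟩
    exact hsO (interior_subset (hVs hy))

theorem rounding (D : Set K) (hD : IsClosed D) (htd : IsTotallyDisconnected Dᶜ)
    (u : C(K, ℝ)) (ε : ℝ) (hε : 0 < ε) (L : Set K) (hL : IsCompact L) (hLD : Disjoint L D) :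
    ∃ C : Set K, IsClopen C ∧ L ⊆ C ∧ Disjoint C D ∧ ∃ p : C(K, ℝ),
      (∀ x, ∃ m : ℤ, p x = 2 * m) ∧ (∀ x, x ∉ C → p x = 0) ∧ ∀ x ∈ C, |u x - p x| ≤ 1 + ε := by
  classical
  refine hL.induction_on (p := fun L => ∃ C : Set K, IsClopen C ∧ L ⊆ C ∧ Disjoint C D ∧
    ∃ p : C(K, ℝ), (∀ x, ∃ m : ℤ, p x = 2 * m) ∧ (∀ x, x ∉ C → p x = 0) ∧
      ∀ x ∈ C, |u x - p x| ≤ 1 + ε) ?_ ?_ ?_ ?_
  · exact ⟨∅, isClopen_empty, Subset.refl _, by simp, 0, fun x => ⟨0, by simp⟩, fun x _ => rfl,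
      fun x hx => absurd hx (by simp)⟩
  · rintro s t hst ⟨C, h1, h2, h3⟩
    exact ⟨C, h1, hst.trans h2, h3⟩
  · rintro s t ⟨C₁, h1, h2, h3, p₁, a1, a2, a3⟩ ⟨C₂, k1, k2, k3, p₂, b1, b2, b3⟩
    refine ⟨C₁ ∪ C₂, h1.union k1, Set.union_subset_union h2 k2, h3.union_left k3,
      ⟨C₁.piecewise p₁ p₂, Continuous.piecewise (by rw [h1.frontier_eq]; simp) p₁.continuous
        p₂.continuous⟩, ?_, ?_, ?_⟩
    · intro x
      change ∃ m : ℤ, C₁.piecewise p₁ p₂ x = 2 * m
      by_cases hx : x ∈ C₁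
      · rw [Set.piecewise_eq_of_mem _ _ _ hx]; exact a1 x
      · rw [Set.piecewise_eq_of_notMem _ _ _ hx]; exact b1 x
    · intro x hx
      change C₁.piecewise p₁ p₂ x = 0
      rw [Set.piecewise_eq_of_notMem _ _ _ (fun h => hx (Or.inl h))]
      exact b2 x (fun h => hx (Or.inr h))
    · intro x hx
      change |u x - C₁.piecewise p₁ p₂ x| ≤ 1 + ε
      by_cases hx1 : x ∈ C₁
      · rw [Set.piecewise_eq_of_mem _ _ _ hx1]; exact a3 x hx1
      · rw [Set.piecewise_eq_of_notMem _ _ _ hx1]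
        exact b3 x (hx.resolve_left hx1)
  · intro x hx
    obtain ⟨V, hV, hxV, hVD, hVu⟩ := local_clopen D hD htd u ε hε x (Set.disjoint_left.1 hLD hx)
    refine ⟨V, mem_nhdsWithin_of_mem_nhds (hV.2.mem_nhds hxV), V, hV, Subset.refl _, hVD,
      ⟨V.piecewise (fun _ => 2 * (round (u x / 2) : ℝ)) (fun _ => 0),
        Continuous.piecewise (by rw [hV.frontier_eq]; simp) continuous_const
        continuous_const⟩, ?_, ?_, ?_⟩
    · intro y
      change ∃ m : ℤ, V.piecewise (fun _ => 2 * (round (u x / 2) : ℝ)) (fun _ => 0) y = 2 * m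
      by_cases hy : y ∈ V
      · rw [Set.piecewise_eq_of_mem _ _ _ hy]; exact ⟨_, rfl⟩
      · rw [Set.piecewise_eq_of_notMem _ _ _ hy]; exact ⟨0, by simp⟩
    · intro y hy
      change V.piecewise (fun _ => 2 * (round (u x / 2) : ℝ)) (fun _ => 0) y = 0
      rw [Set.piecewise_eq_of_notMem _ _ _ hy]
    · intro y hy
      change |u y - V.piecewise (fun _ => 2 * (round (u x / 2) : ℝ)) (fun _ => 0) y| ≤ 1 + ε
      rw [Set.piecewise_eq_of_mem _ _ _ hy]
      have h1 := abs_lt.1 (hVu y hy)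
      have h2 := abs_le.1 (abs_sub_round (u x / 2))
      rw [abs_le]
      constructor <;> linarith [h1.1, h1.2, h2.1, h2.2]

/-- the subgroup of functions with even integer values that vanish on `D` -/
def evenGroup (D : Set K) : AddSubgroup C(K, ℝ) where
  carrier := {p | (∀ x, ∃ m : ℤ, p x = 2 * m) ∧ ∀ x ∈ D, p x = 0}
  zero_mem' := ⟨fun x => ⟨0, by simp⟩, fun x _ => rfl⟩
  add_mem' := by
    rintro p q ⟨hp, hp'⟩ ⟨hq, hq'⟩
    refine ⟨fun x => ?_, fun x hx => ?_⟩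
    · obtain ⟨m, hm⟩ := hp x
      obtain ⟨n, hn⟩ := hq x
      exact ⟨m + n, by simp [hm, hn]; ring⟩
    · simp [hp' x hx, hq' x hx]
  neg_mem' := by
    rintro p ⟨hp, hp'⟩
    refine ⟨fun x => ?_, fun x hx => ?_⟩
    · obtain ⟨m, hm⟩ := hp x
      exact ⟨-m, by simp [hm]⟩
    · simp [hp' x hx]


theorem sep_totallyDisconnected [TotallyDisconnectedSpace K] (ε : ℝ) (hε : 0 < ε) :
    Sep K (∅ : Set K) ε := by
  refine ⟨evenGroup ∅, ?_, ?_, ?_⟩
  · intro g _ x hx; exact absurd hx (by simp)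
  · rintro p ⟨hp1, _⟩ hp0
    obtain ⟨x, hx⟩ : ∃ x, p x ≠ 0 := by
      by_contra hcon
      push Not at hcon
      exact hp0 (ContinuousMap.ext hcon)
    obtain ⟨m, hm⟩ := hp1 x
    have hm0 : m ≠ 0 := by
      rintro rfl
      apply hx; rw [hm]; simp
    have h1 := ContinuousMap.norm_coe_le_norm p x
    rw [Real.norm_eq_abs, hm, abs_mul, abs_two] at h1
    have h2 : (1 : ℝ) ≤ |(m : ℝ)| := by
      exact_mod_cast Int.one_le_abs hm0
    linarith
  · intro u _
    obtain ⟨C, _, hLC, _, p, hp1, _, hp3⟩ := rounding (∅ : Set K) isClosed_empty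
      (isTotallyDisconnected_of_totallyDisconnectedSpace _) u (ε / 2) (by positivity) Set.univ
      isCompact_univ (by simp)
    refine ⟨p, ⟨hp1, fun x hx => absurd hx (by simp)⟩, ?_⟩
    have : ‖u - p‖ ≤ 1 + ε / 2 := by
      rw [ContinuousMap.norm_le _ (by linarith)]
      intro x
      exact hp3 x (hLC trivial)
    linarith

/-- extension by zero: a continuous function on the closed set `M` that vanishes on `M ∩ F'`
extends to a continuous function on `K` that vanishes on `F'` -/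
theorem exists_glue (M F' : Set K) (hM : IsClosed M) (hF' : IsClosed F') (g : C(M, ℝ))
    (hg : ∀ x : M, (x : K) ∈ F' → g x = 0) :
    ∃ w : C(K, ℝ), (∀ x ∈ F', w x = 0) ∧ ∀ x : M, w x = g x := by
  classical
  obtain ⟨g', hg'⟩ := ContinuousMap.exists_restrict_eq hM g
  have hg'' : ∀ x : M, g' x = g x := by
    intro x; rw [← hg']; rfl
  let φ : K → ℝ := fun x => if x ∈ F' then 0 else g' x
  have h1 : ContinuousOn φ F' := by
    refine (continuousOn_const (c := (0 : ℝ))).congr ?_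
    intro x hx
    simp [φ, hx]
  have h2 : ContinuousOn φ M := by
    refine (g'.continuous.continuousOn (s := M)).congr ?_
    intro x hx
    by_cases hxF : x ∈ F'
    · simp only [φ, hxF, if_true]
      have := hg ⟨x, hx⟩ hxF
      rw [← hg''] at this
      exact this.symm
    · simp [φ, hxF]
  have h3 : ContinuousOn φ (M ∪ F') := h2.union_of_isClosed h1 hM hF'
  obtain ⟨w, hw⟩ := ContinuousMap.exists_restrict_eq (hM.union hF')
    (⟨(M ∪ F').domRestrict φ, h3.domRestrict⟩ : C(↥(M ∪ F'), ℝ))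
  have hw' : ∀ x (hx : x ∈ M ∪ F'), w x = φ x := by
    intro x hx
    have := congrArg (fun f => f ⟨x, hx⟩) hw
    exact this
  refine ⟨w, ?_, ?_⟩
  · intro x hx
    rw [hw' x (Or.inr hx)]
    simp [φ, hx]
  · intro x
    rw [hw' x (Or.inl x.2)]
    by_cases hxF : (x : K) ∈ F'
    · simp only [φ, hxF, if_true]
      exact (hg x hxF).symm
    · simp only [φ, hxF, if_false]
      exact hg'' x

theorem transfer (M F' : Set K) [CompactSpace M] (hM : IsClosed M) (hF' : IsClosed F')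
    (ε : ℝ) (h : Sep M {x : M | (x : K) ∈ F'} ε) :
    ∃ Q : AddSubgroup C(K, ℝ), (∀ q ∈ Q, ∀ x ∈ F', q x = 0) ∧
      (∀ q ∈ Q, q ≠ 0 → ∃ x ∈ M, 2 ≤ |q x|) ∧
      ∀ u : C(K, ℝ), (∀ x ∈ F', |u x| < 1 + ε) → ∃ q ∈ Q, ∀ x ∈ M, |u x - q x| < 1 + ε := by
  obtain ⟨G, hG1, hG2, hG3⟩ := h
  let X₀ : Submodule ℝ C(K, ℝ) :=
    { carrier := {w | ∀ x ∈ F', w x = 0}
      zero_mem' := fun x _ => rfl
      add_mem' := by
        intro a b ha hb x hx
        simp [ha x hx, hb x hx]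
      smul_mem' := by
        intro c a ha x hx
        simp [ha x hx] }
  let Y₀ : Submodule ℝ C(M, ℝ) :=
    { carrier := {g | ∀ x : M, (x : K) ∈ F' → g x = 0}
      zero_mem' := fun x _ => rfl
      add_mem' := by
        intro a b ha hb x hx
        simp [ha x hx, hb x hx]
      smul_mem' := by
        intro c a ha x hx
        simp [ha x hx] }
  let ρ : X₀ →ₗ[ℝ] Y₀ :=
    { toFun := fun w => ⟨(w : C(K, ℝ)).restrict M, fun x hx => w.2 x hx⟩
      map_add' := fun _ _ => rfl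
      map_smul' := fun _ _ => rfl }
  have hρ : LinearMap.range ρ = ⊤ := by
    rw [LinearMap.range_eq_top]
    rintro ⟨g, hg⟩
    obtain ⟨w, hw1, hw2⟩ := exists_glue M F' hM hF' g hg
    refine ⟨⟨w, hw1⟩, ?_⟩
    apply Subtype.ext
    ext x
    exact hw2 x
  obtain ⟨σ, hσ⟩ := ρ.exists_rightInverse_of_surjective hρ
  have hσ' : ∀ (g : Y₀) (x : M), ((σ g : X₀) : C(K, ℝ)) x = (g : C(M, ℝ)) x := by
    intro g x
    have h1 : ρ (σ g) = g := by
      have := congrArg (fun f => f g) hσ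
      exact this
    have h2 : ((ρ (σ g) : Y₀) : C(M, ℝ)) x = (g : C(M, ℝ)) x := by rw [h1]
    exact h2
  refine ⟨(G.comap Y₀.subtype.toAddMonoidHom).map (X₀.subtype.comp σ).toAddMonoidHom, ?_, ?_, ?_⟩
  · rintro q ⟨g, _, rfl⟩ x hx
    exact (σ g).2 x hx
  · rintro q ⟨g, hg, rfl⟩ hq0
    have hg0 : (g : C(M, ℝ)) ≠ 0 := by
      intro h0
      apply hq0
      have : g = 0 := Subtype.ext h0
      rw [this]
      simp
    have h2 := hG2 _ hg hg0
    by_contra hcon
    push Not at hcon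
    have h3 : ‖(g : C(M, ℝ))‖ < 2 := by
      rw [ContinuousMap.norm_lt_iff _ (by norm_num)]
      intro x
      rw [Real.norm_eq_abs]
      have := hcon x x.2
      have e : (X₀.subtype.comp σ).toAddMonoidHom g (x : K) = (g : C(M, ℝ)) x := hσ' g x
      rwa [e] at this
    have h4 : 2 ≤ ‖(g : C(M, ℝ))‖ := h2
    linarith
  · intro u hu
    obtain ⟨g, hg, hug⟩ := hG3 (u.restrict M) (fun x hx => hu x hx)
    let g₀ : Y₀ := ⟨g, fun x hx => hG1 g hg x hx⟩
    refine ⟨(X₀.subtype.comp σ).toAddMonoidHom g₀, ⟨g₀, hg, rfl⟩, ?_⟩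
    intro x hx
    have e : (X₀.subtype.comp σ).toAddMonoidHom g₀ x = g ⟨x, hx⟩ := hσ' g₀ ⟨x, hx⟩
    rw [e]
    have := ContinuousMap.norm_coe_le_norm (u.restrict M - g) ⟨x, hx⟩
    rw [Real.norm_eq_abs] at this
    have e2 : (u.restrict M - g) ⟨x, hx⟩ = u x - g ⟨x, hx⟩ := rfl
    rw [e2] at this
    linarith

omit [T2Space K] in
/-- the transfinite construction -/
theorem zorn_packing (ε : ℝ) (hε : 0 < ε)
    (hstep : ∀ F : Set K, IsClosed F → F.Nonempty → ∃ M F' : Set K, IsClosed M ∧ IsClosed F' ∧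
      F = M ∪ F' ∧ F' ≠ F ∧ ∃ Q : AddSubgroup C(K, ℝ), (∀ q ∈ Q, ∀ x ∈ F', q x = 0) ∧
      (∀ q ∈ Q, q ≠ 0 → ∃ x ∈ M, 2 ≤ |q x|) ∧
      ∀ u : C(K, ℝ), (∀ x ∈ F', |u x| < 1 + ε) → ∃ q ∈ Q, ∀ x ∈ M, |u x - q x| < 1 + ε) :
    ∃ P : AddSubgroup C(K, ℝ), (∀ f : C(K, ℝ), ∃ p ∈ P, ‖f - p‖ ≤ 1 + ε) ∧
      ∀ p ∈ P, ∀ q ∈ P, p ≠ q → 2 ≤ ‖p - q‖ := by
  let 𝒮 : Set ((Set K)ᵒᵈ × AddSubgroup C(K, ℝ)) :=
    {z | IsClosed (OrderDual.ofDual z.1) ∧ (∀ w ∈ z.2, ∀ x ∈ OrderDual.ofDual z.1, w x = 0) ∧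
      (∀ w ∈ z.2, w ≠ 0 → 2 ≤ ‖w‖) ∧
      ∀ u : C(K, ℝ), (∀ x ∈ OrderDual.ofDual z.1, |u x| < 1 + ε) → ∃ w ∈ z.2, ‖u - w‖ < 1 + ε}
  have hzorn := zorn_le_nonempty₀ 𝒮 ?_ (OrderDual.toDual Set.univ, ⊥) ?_
  · obtain ⟨⟨F, R⟩, _, hmax⟩ := hzorn
    obtain ⟨⟨hFc, hR1, hR2, hR3⟩, hmax⟩ := hmax
    have hFe : OrderDual.ofDual F = ∅ := by
      by_contra hne
      obtain ⟨M, F', hM, hF', hFu, hF'ne, Q, hQ1, hQ2, hQ3⟩ :=
        hstep (OrderDual.ofDual F) hFc (Set.nonempty_iff_ne_empty.2 hne)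
      have hin : (OrderDual.toDual F', R ⊔ Q) ∈ 𝒮 := by
        refine ⟨hF', ?_, ?_, ?_⟩
        · intro w hw x hx
          change w ∈ R ⊔ Q at hw
          rw [AddSubgroup.mem_sup] at hw
          obtain ⟨a, ha, b, hb, rfl⟩ := hw
          have hxF : x ∈ OrderDual.ofDual F := by rw [hFu]; exact Or.inr hx
          rw [ContinuousMap.add_apply, hR1 a ha x hxF, hQ1 b hb x hx, add_zero]
        · intro w hw hw0
          change w ∈ R ⊔ Q at hw
          rw [AddSubgroup.mem_sup] at hw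
          obtain ⟨a, ha, b, hb, rfl⟩ := hw
          by_cases hb0 : b = 0
          · subst hb0
            rw [add_zero] at hw0 ⊢
            exact hR2 a ha hw0
          · obtain ⟨x, hxM, hx⟩ := hQ2 b hb hb0
            have hxF : x ∈ OrderDual.ofDual F := by rw [hFu]; exact Or.inl hxM
            have h1 := ContinuousMap.norm_coe_le_norm (a + b) x
            rw [Real.norm_eq_abs, ContinuousMap.add_apply, hR1 a ha x hxF, zero_add] at h1
            linarith
        · intro u hu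
          obtain ⟨q, hq, huq⟩ := hQ3 u hu
          obtain ⟨w, hw, huw⟩ := hR3 (u - q) (by
            intro x hx
            rw [hFu] at hx
            rw [ContinuousMap.sub_apply]
            rcases hx with hx | hx
            · exact huq x hx
            · rw [hQ1 q hq x hx, sub_zero]; exact hu x hx)
          refine ⟨w + q, ?_, ?_⟩
          · exact (R ⊔ Q).add_mem (AddSubgroup.mem_sup_left hw) (AddSubgroup.mem_sup_right hq)
          · have : u - (w + q) = u - q - w := by abel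
            rw [this]; exact huw
      have hle : (F, R) ≤ (OrderDual.toDual F', R ⊔ Q) := by
        refine ⟨?_, le_sup_left⟩
        change F' ≤ OrderDual.ofDual F
        rw [hFu]; exact Set.subset_union_right
      have hge := hmax hin hle
      apply hF'ne
      apply Set.Subset.antisymm
      · rw [hFu]; exact Set.subset_union_right
      · exact hge.1
    refine ⟨R, ?_, ?_⟩
    · intro f
      obtain ⟨w, hw, hfw⟩ := hR3 f (by intro x hx; rw [hFe] at hx; exact absurd hx (by simp))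
      exact ⟨w, hw, hfw.le⟩
    · intro p hp q hq hpq
      exact hR2 _ (R.sub_mem hp hq) (sub_ne_zero.2 hpq)
  · intro c hc hchain y hy
    let FF : Set K := ⋂ z : c, OrderDual.ofDual z.1.1
    let RR : AddSubgroup C(K, ℝ) := ⨆ z : c, z.1.2
    have : Nonempty c := ⟨⟨y, hy⟩⟩
    have hdir : Directed (· ≤ ·) (fun z : c => z.1) := by
      intro a b
      rcases hchain.total a.2 b.2 with h | h
      · exact ⟨b, h, le_refl _⟩
      · exact ⟨a, le_refl _, h⟩
    have hdirR : Directed (· ≤ ·) (fun z : c => z.1.2) := by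
      intro a b
      obtain ⟨d, h1, h2⟩ := hdir a b
      exact ⟨d, h1.2, h2.2⟩
    have hdirF : Directed (· ⊇ ·) (fun z : c => OrderDual.ofDual z.1.1) := by
      intro a b
      obtain ⟨d, h1, h2⟩ := hdir a b
      exact ⟨d, h1.1, h2.1⟩
    have hmemR : ∀ w, w ∈ RR ↔ ∃ z : c, w ∈ z.1.2 := by
      intro w
      exact AddSubgroup.mem_iSup_of_directed hdirR
    refine ⟨(OrderDual.toDual FF, RR), ⟨?_, ?_, ?_, ?_⟩, ?_⟩
    · exact isClosed_iInter (fun z => (hc z.2).1)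
    · intro w hw x hx
      obtain ⟨z, hz⟩ := (hmemR w).1 hw
      exact (hc z.2).2.1 w hz x (Set.mem_iInter.1 hx z)
    · intro w hw hw0
      obtain ⟨z, hz⟩ := (hmemR w).1 hw
      exact (hc z.2).2.2.1 w hz hw0
    · intro u hu
      have hUo : IsOpen {x : K | |u x| < 1 + ε} := by
        have : Continuous (fun x : K => |u x|) := by fun_prop
        exact isOpen_lt this continuous_const
      obtain ⟨z, hz⟩ := exists_subset_nhds_of_isCompact' hdirF
        (fun z => ((hc z.2).1).isCompact) (fun z => (hc z.2).1)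
        (U := {x : K | |u x| < 1 + ε}) (fun x hx => hUo.mem_nhds (hu x hx))
      obtain ⟨w, hw, huw⟩ := (hc z.2).2.2.2 u (fun x hx => hz hx)
      exact ⟨w, (hmemR w).2 ⟨z, hw⟩, huw⟩
    · intro z hz
      refine ⟨?_, ?_⟩
      · exact Set.iInter_subset (fun z : c => OrderDual.ofDual z.1.1) ⟨z, hz⟩
      · exact le_iSup (fun z : c => z.1.2) ⟨z, hz⟩
  · refine ⟨isClosed_univ, ?_, ?_, ?_⟩
    · intro w hw x _
      rw [AddSubgroup.mem_bot.1 hw]; rfl
    · intro w hw hw0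
      exact absurd (AddSubgroup.mem_bot.1 hw) hw0
    · intro u hu
      refine ⟨0, AddSubgroup.zero_mem _, ?_⟩
      rw [sub_zero, ContinuousMap.norm_lt_iff _ (by linarith)]
      intro x
      rw [Real.norm_eq_abs]
      exact hu x trivial

end Glue

end Q320.PC
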