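import Pool.Agent.Q320.PC.Basic

open Set Filter Topology

namespace Q320.PC

section Rel

variable {M : Type*} [TopologicalSpace M] [CompactSpace M] [T2Space M]

/-- finitely generated subgroup, 2-separated, vanishing on `B` -/
def RGood (B : Set M) (Q : AddSubgroup C(M, ℝ)) : Prop :=
  Q.FG ∧ (∀ q ∈ Q, ∀ x ∈ B, q x = 0) ∧ ∀ q ∈ Q, q ≠ 0 → 2 ≤ ‖q‖

theorem rstep (B : Set M) (hB : IsClosed B)
    (hperf : ∀ x : M, x ∉ B → (𝓝[≠] x).NeBot) (ε : ℝ) (hε : 0 < ε) (hε1 : ε ≤ 1)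
    (Q : AddSubgroup C(M, ℝ)) (hQ : RGood B Q) (f : C(M, ℝ)) (hf : ∀ x ∈ B, |f x| ≤ 1 + ε) :
    ∃ Q' : AddSubgroup C(M, ℝ), Q ≤ Q' ∧ RGood B Q' ∧ ∃ q ∈ Q', ‖f - q‖ ≤ 1 + ε := by
  classical
  by_cases hcase : ∃ q ∈ Q, ‖f - q‖ ≤ 1 + ε
  · exact ⟨Q, le_refl _, hQ, hcase⟩
  push Not at hcase
  obtain ⟨⟨T, hT⟩, hvan, hsep⟩ := hQ
  let V : Submodule ℝ C(M, ℝ) := Submodule.span ℝ (insert f (T : Set C(M, ℝ)))
  have hfin : (insert f (T : Set C(M, ℝ))).Finite := (T.finite_toSet).insert f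
  have : FiniteDimensional ℝ V := FiniteDimensional.span_of_finite ℝ hfin
  have hQV : ∀ q ∈ Q, q ∈ V := by
    intro q hq
    rw [← hT] at hq
    induction hq using AddSubgroup.closure_induction with
    | mem x hx => exact Submodule.subset_span (Set.mem_insert_of_mem _ hx)
    | zero => exact V.zero_mem
    | add x y _ _ hx hy => exact V.add_mem hx hy
    | neg x _ hx => exact V.neg_mem hx
  have hfV : f ∈ V := Submodule.subset_span (Set.mem_insert _ _)
  have hsep2 : ∀ p ∈ Q, ∀ q ∈ Q, p ≠ q → 2 ≤ ‖p - q‖ := by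
    intro p hp q hq hpq
    exact hsep _ (Q.sub_mem hp hq) (sub_ne_zero.2 hpq)
  let F : Set C(M, ℝ) := {q | q ∈ Q ∧ ‖q‖ ≤ ‖f‖ + 4}
  have hF : F.Finite := by
    refine finite_of_sep V _ ?_ (‖f‖ + 4) ?_ ?_
    · intro q hq; exact hQV q hq.1
    · intro q hq; exact hq.2
    · intro p hp q hq hne
      exact hsep2 p hp.1 q hq.1 hne
  have hpt : ∀ q ∈ Q, ∃ x : M, 1 + ε < |f x - q x| ∧ x ∉ B := by
    intro q hq
    have h1 : ∃ x : M, 1 + ε < |f x - q x| := by
      by_contra hcon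
      push Not at hcon
      have : ‖f - q‖ ≤ 1 + ε := by
        rw [ContinuousMap.norm_le _ (by linarith)]
        intro x
        rw [Real.norm_eq_abs]
        exact hcon x
      exact absurd (hcase q hq) (not_lt.2 this)
    obtain ⟨x, hx⟩ := h1
    refine ⟨x, hx, fun hxB => ?_⟩
    rw [hvan q hq x hxB, sub_zero] at hx
    linarith [hf x hxB]
  obtain ⟨x₀, _, hx₀⟩ := hpt 0 Q.zero_mem
  have : Nonempty M := ⟨x₀⟩
  let U : C(M, ℝ) → Set M := fun q => {x | 1 + ε < |f x - q x|} ∩ Bᶜ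
  have hUo : ∀ q, IsOpen (U q) := by
    intro q
    have : Continuous (fun x : M => |f x - q x|) := by fun_prop
    exact (isOpen_lt continuous_const this).inter hB.isOpen_compl
  have hUinf : ∀ q ∈ F, (U q).Infinite := by
    intro q hq
    obtain ⟨x, hx, hxB⟩ := hpt q hq.1
    have := hperf x hxB
    exact infinite_of_mem_nhds x ((hUo q).mem_nhds ⟨hx, hxB⟩)
  obtain ⟨y, hyinj, hyU⟩ := exists_reps F hF U hUinf
  have hyfin : (y '' F).Finite := hF.image y
  have hBinf : (Bᶜ : Set M).Infinite := by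
    have := hperf x₀ hx₀
    exact infinite_of_mem_nhds x₀ (hB.isOpen_compl.mem_nhds hx₀)
  obtain ⟨z₀, hz₀B, hz₀⟩ : ∃ z₀ : M, z₀ ∉ B ∧ z₀ ∉ y '' F := by
    obtain ⟨z, hzB, hz⟩ := hBinf.exists_notMem_finite hyfin
    exact ⟨z, hzB, hz⟩
  obtain ⟨z₁, hz₁B, hz₁, hz₁', hz₁₀⟩ : ∃ z₁ : M, z₁ ∉ B ∧
      (∀ v ∈ V, |v z₁ - v z₀| ≤ (ε / 2) * ‖v‖) ∧ z₁ ∉ y '' F ∧ z₁ ≠ z₀ := by
    have := hperf z₀ hz₀B
    have hev := equi V z₀ (ε / 2) (by positivity)
    have hinf : ({z | ∀ v ∈ V, |v z - v z₀| ≤ (ε / 2) * ‖v‖} ∩ Bᶜ : Set M).Infinite :=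
      infinite_of_mem_nhds z₀ (Filter.inter_mem hev (hB.isOpen_compl.mem_nhds hz₀B))
    obtain ⟨z, ⟨hz, hzB⟩, hzn⟩ := hinf.exists_notMem_finite (hyfin.insert z₀)
    exact ⟨z, hzB, hz, fun h => hzn (Set.mem_insert_of_mem _ h),
      fun h => hzn (h ▸ Set.mem_insert _ _)⟩
  -- the perturbation
  let A : Set M := insert z₀ (y '' {q ∈ F | 0 < f (y q) - q (y q)})
  let A' : Set M := insert z₁ (y '' {q ∈ F | f (y q) - q (y q) < 0})
  have hAf : A.Finite := (hyfin.subset (Set.image_mono (fun q hq => hq.1))).insert z₀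
  have hBf : A'.Finite := (hyfin.subset (Set.image_mono (fun q hq => hq.1))).insert z₁
  have hAB : Disjoint A A' := by
    rw [Set.disjoint_left]
    rintro a (rfl | ⟨q, hq, rfl⟩) (h | ⟨q', hq', h⟩)
    · exact hz₁₀ h.symm
    · exact hz₀ ⟨q', hq'.1, h⟩
    · exact hz₁' ⟨q, hq.1, h⟩
    · have := hyinj hq'.1 hq.1 h
      subst this
      have h1 := hq.2
      have h2 := hq'.2
      linarith
  have hAAB : Disjoint (A ∪ A') B := by
    rw [Set.disjoint_left]
    rintro a ((rfl | ⟨q, hq, rfl⟩) | (rfl | ⟨q, hq, rfl⟩)) h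
    · exact hz₀B h
    · exact (hyU q hq.1).2 h
    · exact hz₁B h
    · exact (hyU q hq.1).2 h
  obtain ⟨g, hg0, hg1, hg⟩ := exists_continuous_zero_one_of_isClosed
    hBf.isClosed hAf.isClosed hAB.symm
  obtain ⟨χ, hχ0, hχ1, hχ⟩ := exists_continuous_zero_one_of_isClosed
    (hAf.union hBf).isClosed hB hAAB
  let h : C(M, ℝ) := ⟨fun x => χ x * max (-(1 + ε)) (min (1 + ε) (-f x)) +
    (1 - χ x) * ((1 + ε) * (2 * g x - 1)), by fun_prop⟩
  have hval : ∀ x, h x = χ x * max (-(1 + ε)) (min (1 + ε) (-f x)) +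
    (1 - χ x) * ((1 + ε) * (2 * g x - 1)) := fun x => rfl
  have hA : ∀ x ∈ A, h x = 1 + ε := by
    intro x hx
    rw [hval, hg1 hx, hχ0 (Or.inl hx)]
    simp; ring
  have hA' : ∀ x ∈ A', h x = -(1 + ε) := by
    intro x hx
    rw [hval, hg0 hx, hχ0 (Or.inr hx)]
    simp
  have hhB : ∀ x ∈ B, h x = - f x := by
    intro x hx
    have h1 := abs_le.1 (hf x hx)
    rw [hval, hχ1 hx, min_eq_right (by linarith [h1.1]), max_eq_right (by linarith [h1.2])]
    simp
  have hh : ‖h‖ ≤ 1 + ε := by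
    rw [ContinuousMap.norm_le _ (by linarith)]
    intro x
    rw [Real.norm_eq_abs, hval]
    have h1 := hχ x
    have h2 := hg x
    have h3 : |max (-(1 + ε)) (min (1 + ε) (-f x))| ≤ 1 + ε := by
      rw [abs_le]
      exact ⟨le_max_left _ _, max_le (by linarith) (min_le_left _ _)⟩
    have h4 : |(1 + ε) * (2 * g x - 1)| ≤ 1 + ε := by
      rw [abs_mul, abs_of_pos (by linarith : 0 < 1 + ε)]
      have h5 : |2 * g x - 1| ≤ 1 := by
        rw [abs_le]; constructor <;> linarith [h2.1, h2.2]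
      nlinarith
    calc _ ≤ |χ x * max (-(1 + ε)) (min (1 + ε) (-f x))| +
          |(1 - χ x) * ((1 + ε) * (2 * g x - 1))| := abs_add_le _ _
      _ ≤ χ x * (1 + ε) + (1 - χ x) * (1 + ε) := by
        rw [abs_mul, abs_mul (1 - χ x), abs_of_nonneg h1.1,
          abs_of_nonneg (by linarith [h1.2] : 0 ≤ 1 - χ x)]
        exact add_le_add (mul_le_mul_of_nonneg_left h3 h1.1)
          (mul_le_mul_of_nonneg_left h4 (by linarith [h1.2]))
      _ = 1 + ε := by ring
  have key : ∀ k : ℤ, 1 ≤ k → ∀ q ∈ Q, 2 ≤ ‖k • (f + h) - q‖ := by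
    intro k hk q hq
    rcases eq_or_lt_of_le hk with hk1 | hk1
    · subst hk1
      rw [one_smul]
      by_cases hqF : ‖q‖ ≤ ‖f‖ + 4
      · have hqF' : q ∈ F := ⟨hq, hqF⟩
        have h1 := (hyU q hqF').1
        change 1 + ε < |f (y q) - q (y q)| at h1
        have h2 := ContinuousMap.norm_coe_le_norm (f + h - q) (y q)
        rw [Real.norm_eq_abs] at h2
        simp only [ContinuousMap.coe_sub, ContinuousMap.coe_add, Pi.sub_apply, Pi.add_apply] at h2
        rcases lt_trichotomy 0 (f (y q) - q (y q)) with h3 | h3 | h3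
        · have h4 := hA (y q) (Set.mem_insert_of_mem _ ⟨q, ⟨hqF', h3⟩, rfl⟩)
          rw [h4] at h2
          rw [abs_of_pos h3] at h1
          have := le_abs_self (f (y q) + (1 + ε) - q (y q))
          linarith
        · rw [← h3, abs_zero] at h1; linarith
        · have h4 := hA' (y q) (Set.mem_insert_of_mem _ ⟨q, ⟨hqF', h3⟩, rfl⟩)
          rw [h4] at h2
          rw [abs_of_neg h3] at h1
          have := neg_abs_le (f (y q) + -(1 + ε) - q (y q))
          linarith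
      · push Not at hqF
        have h1 : ‖q‖ ≤ ‖f + h - q‖ + ‖f + h‖ := by
          have : q = (f + h) - (f + h - q) := by abel
          calc ‖q‖ = ‖(f + h) - (f + h - q)‖ := by rw [← this]
            _ ≤ ‖f + h‖ + ‖f + h - q‖ := norm_sub_le _ _
            _ = _ := add_comm _ _
        have h2 : ‖f + h‖ ≤ ‖f‖ + ‖h‖ := norm_add_le _ _
        linarith
    · have hk2 : (2 : ℝ) ≤ (k : ℝ) := by exact_mod_cast hk1
      by_contra hcon
      push Not at hcon
      set N := ‖k • (f + h) - q‖ with hN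
      set v : C(M, ℝ) := k • f - q with hv
      have hvV : v ∈ V := by
        rw [hv]
        exact V.sub_mem (zsmul_mem hfV k) (hQV q hq)
      have h1 : ‖v‖ ≤ N + k * (1 + ε) := by
        have : v = (k • (f + h) - q) - (k : ℝ) • h := by
          ext x
          simp [hv]
          ring
        rw [this]
        refine (norm_sub_le _ _).trans ?_
        rw [norm_smul, Real.norm_eq_abs, abs_of_pos (by linarith : (0:ℝ) < k)]
        have : (k : ℝ) * ‖h‖ ≤ k * (1 + ε) := by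
          refine mul_le_mul_of_nonneg_left hh (by linarith)
        linarith
      have h2 := hz₁ v hvV
      have zs : ∀ (F : C(M, ℝ)) (x : M), (k • F) x = (k : ℝ) * F x := by
        intro F x; simp
      have h3 := ContinuousMap.norm_coe_le_norm (k • (f + h) - q) z₀
      have h4 := ContinuousMap.norm_coe_le_norm (k • (f + h) - q) z₁
      rw [Real.norm_eq_abs, ← hN] at h3 h4
      have e0 : (k • (f + h) - q) z₀ = v z₀ + k * (1 + ε) := by
        have := hA z₀ (Set.mem_insert _ _)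
        rw [ContinuousMap.sub_apply, zs, ContinuousMap.add_apply, hv, ContinuousMap.sub_apply, zs,
          this]
        ring
      have e1 : (k • (f + h) - q) z₁ = v z₁ - k * (1 + ε) := by
        have := hA' z₁ (Set.mem_insert _ _)
        rw [ContinuousMap.sub_apply, zs, ContinuousMap.add_apply, hv, ContinuousMap.sub_apply, zs,
          this]
        ring
      rw [e0] at h3
      rw [e1] at h4
      have h5 := (abs_le.1 h3).2
      have h6 := (abs_le.1 h4).1
      have h7 := (abs_le.1 h2).2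
      have h8 : 2 * (k * (1 + ε)) - (ε / 2) * ‖v‖ ≤ 2 * N := by linarith
      have h9 : ‖v‖ ≤ 3 * k := by nlinarith
      have h10 : (ε / 2) * ‖v‖ ≤ (ε / 2) * (3 * k) := by
        refine mul_le_mul_of_nonneg_left h9 (by positivity)
      nlinarith
  refine ⟨Q ⊔ AddSubgroup.zmultiples (f + h), le_sup_left, ⟨?_, ?_, ?_⟩, f + h, ?_, ?_⟩
  · refine AddSubgroup.FG.sup ⟨T, hT⟩ ?_
    exact ⟨{f + h}, by simp [AddSubgroup.zmultiples_eq_closure]⟩
  · intro w hw x hx
    rw [AddSubgroup.mem_sup] at hw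
    obtain ⟨q, hq, z, hz, rfl⟩ := hw
    rw [AddSubgroup.mem_zmultiples_iff] at hz
    obtain ⟨k, rfl⟩ := hz
    simp [hvan q hq x hx, hhB x hx]
  · intro w hw hw0
    rw [AddSubgroup.mem_sup] at hw
    obtain ⟨q, hq, z, hz, rfl⟩ := hw
    rw [AddSubgroup.mem_zmultiples_iff] at hz
    obtain ⟨k, rfl⟩ := hz
    rcases lt_trichotomy k 0 with hk | hk | hk
    · have := key (-k) (by omega) q hq
      have e : (q + k • (f + h)) = - (-k • (f + h) - q) := by
        rw [neg_smul]; abel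
      rw [e, norm_neg]
      exact this
    · subst hk
      rw [zero_smul, add_zero] at hw0 ⊢
      exact hsep q hq hw0
    · have := key k (by omega) (-q) (Q.neg_mem hq)
      have e : k • (f + h) - -q = q + k • (f + h) := by abel
      rwa [e] at this
  · exact AddSubgroup.mem_sup_right (AddSubgroup.mem_zmultiples _)
  · have : f - (f + h) = -h := by abel
    rw [this, norm_neg]
    exact hh

/-- the packing property of the pair `(M, B)` -/
def Sep (M : Type*) [TopologicalSpace M] [CompactSpace M] (B : Set M) (ε : ℝ) : Prop :=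
  ∃ G : AddSubgroup C(M, ℝ), (∀ g ∈ G, ∀ x ∈ B, g x = 0) ∧ (∀ g ∈ G, g ≠ 0 → 2 ≤ ‖g‖) ∧
    ∀ u : C(M, ℝ), (∀ x ∈ B, |u x| < 1 + ε) → ∃ g ∈ G, ‖u - g‖ < 1 + ε

theorem sep_perfect [SecondCountableTopology M] (B : Set M) (hB : IsClosed B)
    (hperf : ∀ x : M, x ∉ B → (𝓝[≠] x).NeBot) (ε : ℝ) (hε : 0 < ε) (hε1 : ε ≤ 1) :
    Sep M B ε := by
  classical
  have hBc : CompactSpace B := isCompact_iff_compactSpace.1 hB.isCompact
  obtain ⟨g, hg⟩ := TopologicalSpace.exists_dense_seq C(M, ℝ)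
  let δ : C(M, ℝ) → ℝ := fun f => max (ε / 2) (‖f.restrict B‖ - 1)
  have hstep : ∀ (Q : {Q : AddSubgroup C(M, ℝ) // RGood B Q}) (f : C(M, ℝ)),
      ∃ Q' : {Q : AddSubgroup C(M, ℝ) // RGood B Q}, Q.1 ≤ Q'.1 ∧
        (δ f < ε → ∃ q ∈ Q'.1, ‖f - q‖ ≤ 1 + δ f) := by
    intro Q f
    by_cases h : δ f < ε
    · have h0 : ε / 2 ≤ δ f := le_max_left _ _
      have h0' : ‖f.restrict B‖ - 1 ≤ δ f := le_max_right _ _
      obtain ⟨Q', h1, h2, h3⟩ := rstep B hB hperf (δ f) (by linarith) (by linarith) Q.1 Q.2 f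
        (by
          intro x hx
          have := ContinuousMap.norm_coe_le_norm (f.restrict B) ⟨x, hx⟩
          rw [Real.norm_eq_abs] at this
          have e : (f.restrict B) ⟨x, hx⟩ = f x := rfl
          rw [e] at this
          linarith)
      exact ⟨⟨Q', h2⟩, h1, fun _ => h3⟩
    · exact ⟨Q, le_refl _, fun h' => absurd h' h⟩
  choose S hS1 hS2 using hstep
  have h0 : RGood B (⊥ : AddSubgroup C(M, ℝ)) := by
    refine ⟨⟨∅, by simp⟩, ?_, ?_⟩
    · intro q hq x _
      rw [AddSubgroup.mem_bot.1 hq]; rfl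
    · intro q hq hq0
      exact absurd (AddSubgroup.mem_bot.1 hq) hq0
  let Qs : ℕ → {Q : AddSubgroup C(M, ℝ) // RGood B Q} :=
    fun n => Nat.rec ⟨⊥, h0⟩ (fun n Q => S Q (g n)) n
  have hQs : ∀ n, Qs (n + 1) = S (Qs n) (g n) := fun n => rfl
  have hmono : Monotone (fun n => (Qs n).1) := by
    refine monotone_nat_of_le_succ (fun n => ?_)
    rw [hQs]; exact hS1 _ _
  have hmem : ∀ q, q ∈ (⨆ n, (Qs n).1) ↔ ∃ n, q ∈ (Qs n).1 := by
    intro q
    exact AddSubgroup.mem_iSup_of_directed hmono.directed_le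
  refine ⟨⨆ n, (Qs n).1, ?_, ?_, ?_⟩
  · intro q hq
    obtain ⟨n, hn⟩ := (hmem q).1 hq
    exact (Qs n).2.2.1 q hn
  · intro q hq hq0
    obtain ⟨n, hn⟩ := (hmem q).1 hq
    exact (Qs n).2.2.2 q hn hq0
  · intro u hu
    have hc : ‖u.restrict B‖ < 1 + ε := by
      rw [ContinuousMap.norm_lt_iff _ (by linarith)]
      intro x
      rw [Real.norm_eq_abs]
      exact hu x x.2
    obtain ⟨τ, hτ0, hτ1, hτ2⟩ : ∃ τ : ℝ, 0 < τ ∧ τ < ε / 2 ∧ 2 * τ < 1 + ε - ‖u.restrict B‖ := by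
      refine ⟨min (ε / 4) ((1 + ε - ‖u.restrict B‖) / 3), ?_, ?_, ?_⟩
      · refine lt_min (by linarith) (by linarith)
      · have := min_le_left (ε / 4) ((1 + ε - ‖u.restrict B‖) / 3)
        linarith
      · have := min_le_right (ε / 4) ((1 + ε - ‖u.restrict B‖) / 3)
        linarith
    obtain ⟨_, hn, ⟨n, rfl⟩⟩ := Metric.dense_iff.1 hg u τ hτ0
    rw [Metric.mem_ball, dist_eq_norm] at hn
    have h1 : ‖(g n).restrict B‖ ≤ ‖u.restrict B‖ + τ := by
      have e : (g n).restrict B = u.restrict B + (g n - u).restrict B := by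
        ext x
        simp
      rw [e]
      refine (norm_add_le _ _).trans ?_
      have : ‖(g n - u).restrict B‖ ≤ ‖g n - u‖ := by
        rw [ContinuousMap.norm_le _ (norm_nonneg _)]
        intro x
        exact ContinuousMap.norm_coe_le_norm (g n - u) x
      linarith
    have h2 : δ (g n) < ε := by
      refine max_lt (by linarith) (by linarith)
    obtain ⟨q, hq, hqn⟩ := hS2 (Qs n) (g n) h2
    refine ⟨q, (hmem q).2 ⟨n + 1, by rw [hQs]; exact hq⟩, ?_⟩
    have e : u - q = -(g n - u) + (g n - q) := by abel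
    rw [e]
    refine (norm_add_le _ _).trans_lt ?_
    rw [norm_neg]
    have h3 : δ (g n) + τ < ε := by
      have : δ (g n) ≤ max (ε / 2) (‖u.restrict B‖ + τ - 1) := by
        refine max_le_max le_rfl (by linarith)
      have h4 : max (ε / 2) (‖u.restrict B‖ + τ - 1) < ε - τ := by
        refine max_lt (by linarith) (by linarith)
      linarith
    linarith

end Rel

end Q320.PC
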